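import Mathlib

/-!
# Thickness and spectral sensitivity

If a function on the cube is false on the points of weight `< s₀` and true on the points of weight
`≥ s₁`, and `Λ` bounds the square of the norm of the bipartite adjacency matrix between the true
and the false points, then `s₀ (n + 1 - s₀) ≤ Λ (s₁ - s₀ + 1)`.
-/

set_option autoImplicit false

open Finset

namespace Pool.H25.GapDeg

variable {n : ℕ}

/-- `x` with bit `i` changed. -/
def fl (i : Fin n) (x : Fin n → Bool) : Fin n → Bool := Function.update x i (!x i)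

/-- Number of true bits. -/
def wt (x : Fin n → Bool) : ℕ := (univ.filter (fun i => x i = true)).card

lemma fl_same (i : Fin n) (x : Fin n → Bool) : fl i x i = !x i := by simp [fl]

lemma fl_ne {i j : Fin n} (h : j ≠ i) (x : Fin n → Bool) : fl i x j = x j := by
  simp [fl, h]

lemma fl_fl (i : Fin n) (x : Fin n → Bool) : fl i (fl i x) = x := by
  ext j
  by_cases h : j = i
  · subst h; simp [fl_same]
  · simp [fl_ne h]

lemma fl_comm (i j : Fin n) (x : Fin n → Bool) : fl i (fl j x) = fl j (fl i x) := by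
  by_cases hij : i = j
  · subst hij; rfl
  ext k
  by_cases h1 : k = i
  · subst h1; rw [fl_same, fl_ne hij, fl_ne hij, fl_same]
  · by_cases h2 : k = j
    · subst h2; rw [fl_ne h1, fl_same, fl_same, fl_ne h1]
    · rw [fl_ne h1, fl_ne h2, fl_ne h2, fl_ne h1]

/-- Flipping a bit, as an equivalence. -/
def flE (i : Fin n) : (Fin n → Bool) ≃ (Fin n → Bool) where
  toFun := fl i
  invFun := fl i
  left_inv := fl_fl i
  right_inv := fl_fl i

lemma sum_fl (i : Fin n) (f : (Fin n → Bool) → ℝ) : ∑ x, f (fl i x) = ∑ x, f x :=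
  Equiv.sum_comp (flE i) f

/-- Component of the up operator: `x ↦ g (x - e i)` if bit `i` of `x` is true. -/
def A (i : Fin n) (g : (Fin n → Bool) → ℝ) (x : Fin n → Bool) : ℝ :=
  if x i = true then g (fl i x) else 0

/-- Component of the down operator: `x ↦ g (x + e i)` if bit `i` of `x` is false. -/
def B (i : Fin n) (g : (Fin n → Bool) → ℝ) (x : Fin n → Bool) : ℝ :=
  if x i = true then 0 else g (fl i x)

/-- The up operator. -/
def U (g : (Fin n → Bool) → ℝ) (x : Fin n → Bool) : ℝ := ∑ i, A i g x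

/-- The down operator. -/
def D (g : (Fin n → Bool) → ℝ) (x : Fin n → Bool) : ℝ := ∑ i, B i g x

lemma adj_comp (i : Fin n) (g h : (Fin n → Bool) → ℝ) :
    ∑ x, h x * B i g x = ∑ x, A i h x * g x := by
  rw [← sum_fl i (fun x => h x * B i g x)]
  refine Finset.sum_congr rfl fun x _ => ?_
  simp only [A, B, fl_same, fl_fl]
  cases x i <;> simp

lemma adj (g h : (Fin n → Bool) → ℝ) : ∑ x, h x * D g x = ∑ x, U h x * g x := by
  simp only [D, U, Finset.mul_sum, Finset.sum_mul]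
  rw [Finset.sum_comm, Finset.sum_comm (s := univ (α := Fin n → Bool))]
  exact Finset.sum_congr rfl fun i _ => adj_comp i g h

lemma cross (i j : Fin n) (h : i ≠ j) (g : (Fin n → Bool) → ℝ) :
    ∑ x, A i g x * A j g x = ∑ x, B i g x * B j g x := by
  rw [← sum_fl i (fun x => B i g x * B j g x), ← sum_fl j (fun x => A i g x * A j g x)]
  refine Finset.sum_congr rfl fun x _ => ?_
  simp only [A, B, fl_same, fl_ne h, fl_ne h.symm, fl_fl]
  rw [fl_comm i j]
  cases x i <;> cases x j <;> simp [mul_comm]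

lemma diagA (i : Fin n) (g : (Fin n → Bool) → ℝ) :
    ∑ x, A i g x * A i g x = ∑ x, (if x i = true then 0 else 1) * g x ^ 2 := by
  rw [← sum_fl i]
  refine Finset.sum_congr rfl fun x _ => ?_
  simp only [A, fl_same, fl_fl]
  cases x i <;> simp [sq]

lemma diagB (i : Fin n) (g : (Fin n → Bool) → ℝ) :
    ∑ x, B i g x * B i g x = ∑ x, (if x i = true then 1 else 0) * g x ^ 2 := by
  rw [← sum_fl i]
  refine Finset.sum_congr rfl fun x _ => ?_
  simp only [B, fl_same, fl_fl]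
  cases x i <;> simp [sq]

lemma sumsq (C : Fin n → (Fin n → Bool) → ℝ) :
    ∑ x, (∑ i, C i x) ^ 2 = ∑ i, ∑ j, ∑ x, C i x * C j x := by
  simp_rw [sq, Finset.sum_mul_sum]
  rw [Finset.sum_comm]
  exact Finset.sum_congr rfl fun i _ => Finset.sum_comm

lemma card_true (x : Fin n → Bool) :
    ∑ i, (if x i = true then (1:ℝ) else 0) = (wt x : ℝ) := by
  rw [Finset.sum_boole]; rfl

lemma card_false (x : Fin n → Bool) :
    ∑ i, (if x i = true then (0:ℝ) else 1) = (n : ℝ) - (wt x : ℝ) := by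
  have h : ∀ i, (if x i = true then (0:ℝ) else 1) = 1 - (if x i = true then (1:ℝ) else 0) := by
    intro i; split_ifs <;> norm_num
  simp_rw [h]
  rw [Finset.sum_sub_distrib, card_true]
  simp

/-- The commutation relation. -/
lemma comm (g : (Fin n → Bool) → ℝ) :
    ∑ x, U g x ^ 2 = ∑ x, D g x ^ 2 + ∑ x, ((n : ℝ) - 2 * (wt x : ℝ)) * g x ^ 2 := by
  have h1 : ∑ x, U g x ^ 2 = ∑ i, ∑ j, ∑ x, A i g x * A j g x := sumsq (fun i => A i g)
  have h2 : ∑ x, D g x ^ 2 = ∑ i, ∑ j, ∑ x, B i g x * B j g x := sumsq (fun i => B i g)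
  have h3 : ∀ i j, ∑ x, A i g x * A j g x = ∑ x, B i g x * B j g x +
      (if i = j then ∑ x, ((if x i = true then (0:ℝ) else 1) -
        (if x i = true then (1:ℝ) else 0)) * g x ^ 2 else 0) := by
    intro i j
    by_cases h : i = j
    · subst h
      rw [diagA, diagB, if_pos rfl, ← Finset.sum_add_distrib]
      refine Finset.sum_congr rfl fun x _ => ?_
      ring
    · rw [if_neg h, add_zero, cross i j h]
  rw [h1, h2]
  simp_rw [h3]
  simp_rw [Finset.sum_add_distrib]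
  congr 1
  simp_rw [Finset.sum_ite_eq]
  simp only [Finset.mem_univ, if_true]
  rw [Finset.sum_comm]
  refine Finset.sum_congr rfl fun x _ => ?_
  rw [← Finset.sum_mul, Finset.sum_sub_distrib, card_true, card_false]
  ring


/-- The layer inequality behind the telescoping sum. `g` is supported on the true points of
weight `s`, `g'` is the restriction of `D g` to the true points. -/
lemma layer (F : (Fin n → Bool) → Prop) [DecidablePred F] (Λ : ℝ) (hΛ : 0 ≤ Λ)
    (H : ∀ u v : (Fin n → Bool) → ℝ, (∀ x, 0 ≤ u x) → (∀ x, 0 ≤ v x) →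
      (∀ x, ¬ F x → u x = 0) → (∀ x, F x → v x = 0) →
      (∑ x, ∑ i, u x * v (fl i x)) ^ 2 ≤ Λ * (∑ x, u x ^ 2) * (∑ x, v x ^ 2))
    (g : (Fin n → Bool) → ℝ) (hg : ∀ x, 0 ≤ g x) (hF : ∀ x, ¬ F x → g x = 0) :
    ∑ x, D g x ^ 2 - ∑ x, (if F x then D g x else 0) ^ 2 ≤ Λ * ∑ x, g x ^ 2 := by
  have hD : ∀ x, 0 ≤ D g x := fun x => Finset.sum_nonneg fun i _ => by
    unfold B; split_ifs; · exact le_rfl
    · exact hg _
  set v : (Fin n → Bool) → ℝ := fun x => if F x then 0 else D g x with hv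
  have hv0 : ∀ x, 0 ≤ v x := fun x => by
    simp only [hv]; split_ifs; · exact le_rfl
    · exact hD x
  have e1 : ∑ x, D g x ^ 2 - ∑ x, (if F x then D g x else 0) ^ 2 = ∑ x, v x ^ 2 := by
    rw [← Finset.sum_sub_distrib]
    refine Finset.sum_congr rfl fun x _ => ?_
    simp only [hv]; split_ifs <;> ring
  rw [e1]
  have h1 := H g v hg hv0 hF (fun x hx => by simp [hv, hx])
  have e2 : ∑ x, ∑ i, g x * v (fl i x) = ∑ x, ∑ i, g (fl i x) * v x := by
    rw [Finset.sum_comm, Finset.sum_comm (s := univ (α := Fin n → Bool))]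
    refine Finset.sum_congr rfl fun i _ => ?_
    rw [← sum_fl i (fun x => g x * v (fl i x))]
    refine Finset.sum_congr rfl fun x _ => ?_
    rw [fl_fl]
  have h2 : ∑ x, v x ^ 2 ≤ ∑ x, ∑ i, g x * v (fl i x) := by
    rw [e2]
    refine Finset.sum_le_sum fun x _ => ?_
    have h3 : D g x ≤ ∑ i, g (fl i x) := Finset.sum_le_sum fun i _ => by
      unfold B; split_ifs
      · exact hg _
      · exact le_rfl
    rw [← Finset.sum_mul, sq]
    by_cases hx : F x
    · simp [hv, hx]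
    · have : v x = D g x := by simp [hv, hx]
      rw [this]
      exact mul_le_mul_of_nonneg_right h3 (hD x)
  set S : ℝ := ∑ x, v x ^ 2 with hS
  have hS0 : 0 ≤ S := Finset.sum_nonneg fun x _ => sq_nonneg _
  rcases hS0.eq_or_lt with h0 | hpos
  · rw [← h0]
    exact mul_nonneg hΛ (Finset.sum_nonneg fun x _ => sq_nonneg _)
  · have h4 : S ^ 2 ≤ Λ * (∑ x, g x ^ 2) * S :=
      (pow_le_pow_left₀ hS0 h2 2).trans h1
    rw [sq] at h4
    exact le_of_mul_le_mul_right h4 hpos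

/-- The vectors `g k`: `g 0` is the indicator of the layer of weight `s₁`, and `g (k + 1)` is the
restriction of `D (g k)` to the true points. -/
noncomputable def seq (F : (Fin n → Bool) → Prop) [DecidablePred F] (s₁ : ℕ) :
    ℕ → (Fin n → Bool) → ℝ
  | 0 => fun x => if wt x = s₁ then 1 else 0
  | k + 1 => fun x => if F x then D (seq F s₁ k) x else 0

lemma wt_fl_false {i : Fin n} {x : Fin n → Bool} (h : ¬ x i = true) : wt (fl i x) = wt x + 1 := by
  unfold wt
  have : univ.filter (fun j => fl i x j = true) =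
      insert i (univ.filter (fun j => x j = true)) := by
    ext j
    by_cases hj : j = i
    · subst hj; simp [fl_same, h]
    · simp [fl_ne hj, hj]
  rw [this, Finset.card_insert_of_notMem (by simp [h])]

lemma wt_fl_true {i : Fin n} {x : Fin n → Bool} (h : x i = true) : wt (fl i x) + 1 = wt x := by
  have h1 : ¬ fl i x i = true := by rw [fl_same, h]; simp
  have h2 := wt_fl_false h1
  rw [fl_fl] at h2
  exact h2.symm

variable (F : (Fin n → Bool) → Prop) [DecidablePred F] (s₁ : ℕ)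

lemma seq_nonneg (k : ℕ) (x : Fin n → Bool) : 0 ≤ seq F s₁ k x := by
  induction k generalizing x with
  | zero => simp only [seq]; split_ifs <;> norm_num
  | succ k ih =>
    simp only [seq]
    split_ifs
    · refine Finset.sum_nonneg fun i _ => ?_
      unfold B; split_ifs
      · exact le_rfl
      · exact ih _
    · exact le_rfl

lemma seq_layer (k : ℕ) (x : Fin n → Bool) (h : seq F s₁ k x ≠ 0) : wt x + k = s₁ := by
  induction k generalizing x with
  | zero =>
    simp only [seq] at h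
    by_contra h'
    rw [if_neg (by omega)] at h
    exact h rfl
  | succ k ih =>
    simp only [seq] at h
    split_ifs at h with hF
    · obtain ⟨i, -, hi⟩ := Finset.exists_ne_zero_of_sum_ne_zero h
      unfold B at hi
      split_ifs at hi with hx
      · exact absurd rfl hi
      · have := ih _ hi
        rw [wt_fl_false hx] at this
        omega
    · exact absurd rfl h

lemma seq_supp (hhigh : ∀ x, s₁ ≤ wt x → F x) (k : ℕ) (x : Fin n → Bool) (hx : ¬ F x) :
    seq F s₁ k x = 0 := by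
  cases k with
  | zero =>
    simp only [seq]
    rw [if_neg]
    intro h
    exact hx (hhigh x h.ge)
  | succ k => simp only [seq]; rw [if_neg hx]


/-- Squared norms. -/
noncomputable def N (k : ℕ) : ℝ := ∑ x, seq F s₁ k x ^ 2

lemma N_nonneg (k : ℕ) : 0 ≤ N F s₁ k := Finset.sum_nonneg fun x _ => sq_nonneg _

lemma N_zero_pos (h : s₁ ≤ n) : 0 < N F s₁ 0 := by
  have hx : ∃ x : Fin n → Bool, wt x = s₁ := by
    obtain ⟨S, -, hS⟩ := Finset.exists_subset_card_eq (s := (univ : Finset (Fin n))) (n := s₁)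
      (by simpa using h)
    refine ⟨fun i => decide (i ∈ S), ?_⟩
    unfold wt
    rw [← hS]
    congr 1
    ext i
    simp
  obtain ⟨x, hx⟩ := hx
  have h1 : (seq F s₁ 0 x) ^ 2 ≤ N F s₁ 0 :=
    Finset.single_le_sum (f := fun x => seq F s₁ 0 x ^ 2) (fun x _ => sq_nonneg _)
      (Finset.mem_univ x)
  have h2 : seq F s₁ 0 x = 1 := by simp [seq, hx]
  rw [h2] at h1
  linarith

lemma D_seq_zero (y : Fin n → Bool) :
    D (seq F s₁ 0) y = if wt y + 1 = s₁ then (n : ℝ) + 1 - (s₁ : ℝ) else 0 := by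
  unfold D B
  by_cases h : wt y + 1 = s₁
  · rw [if_pos h]
    have h1 : ∀ i, (if y i = true then (0:ℝ) else seq F s₁ 0 (fl i y)) =
        (if y i = true then (0:ℝ) else 1) := by
      intro i
      split_ifs with hi
      · rfl
      · simp only [seq]
        rw [if_pos (by rw [wt_fl_false hi]; exact h)]
    simp_rw [h1]
    rw [card_false, ← h]
    push_cast
    ring
  · rw [if_neg h]
    refine Finset.sum_eq_zero fun i _ => ?_
    split_ifs with hi
    · rfl
    · simp only [seq]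
      rw [if_neg (by rw [wt_fl_false hi]; exact h)]

lemma sum_D_zero : ∑ x, D (seq F s₁ 0) x ^ 2 =
    (s₁ : ℝ) * ((n : ℝ) + 1 - (s₁ : ℝ)) * N F s₁ 0 := by
  have h1 : ∀ x : Fin n → Bool, D (seq F s₁ 0) x ^ 2 =
      ((n : ℝ) + 1 - (s₁ : ℝ)) * (1 * D (seq F s₁ 0) x) := by
    intro x
    rw [D_seq_zero]
    split_ifs <;> ring
  simp_rw [h1]
  rw [← Finset.mul_sum, adj (seq F s₁ 0) (fun _ => (1:ℝ))]
  have h2 : ∀ x : Fin n → Bool, U (fun _ => (1:ℝ)) x * seq F s₁ 0 x =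
      (s₁ : ℝ) * seq F s₁ 0 x ^ 2 := by
    intro x
    have : U (fun _ => (1:ℝ)) x = (wt x : ℝ) := by
      unfold U A
      exact card_true x
    rw [this]
    simp only [seq]
    split_ifs with h
    · rw [h]; ring
    · ring
  simp_rw [h2]
  rw [← Finset.mul_sum]
  unfold N
  ring

lemma N_supp (hhigh : ∀ x, s₁ ≤ wt x → F x) (k : ℕ) :
    ∑ x, U (seq F s₁ (k + 1)) x * seq F s₁ k x = N F s₁ (k + 1) := by
  rw [← adj]
  unfold N
  refine Finset.sum_congr rfl fun x _ => ?_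
  by_cases hx : F x
  · have : seq F s₁ (k + 1) x = D (seq F s₁ k) x := by simp [seq, hx]
    rw [← this]; ring
  · rw [seq_supp F s₁ hhigh (k + 1) x hx]; ring

lemma layer_weight (k : ℕ) :
    ∑ x, ((n : ℝ) - 2 * (wt x : ℝ)) * seq F s₁ k x ^ 2 =
      ((n : ℝ) - 2 * ((s₁ : ℝ) - (k : ℝ))) * N F s₁ k := by
  unfold N
  rw [Finset.mul_sum]
  refine Finset.sum_congr rfl fun x _ => ?_
  by_cases h : seq F s₁ k x = 0
  · rw [h]; ring
  · have := seq_layer F s₁ k x h
    have h2 : (s₁ : ℝ) = (wt x : ℝ) + (k : ℝ) := by rw [← this]; push_cast; ring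
    rw [h2]
    ring

variable {F s₁}

/-- **Thickness times squared spectral sensitivity.** -/
theorem thick (Λ : ℝ) (hΛ : 0 ≤ Λ)
    (H : ∀ u v : (Fin n → Bool) → ℝ, (∀ x, 0 ≤ u x) → (∀ x, 0 ≤ v x) →
      (∀ x, ¬ F x → u x = 0) → (∀ x, F x → v x = 0) →
      (∑ x, ∑ i, u x * v (fl i x)) ^ 2 ≤ Λ * (∑ x, u x ^ 2) * (∑ x, v x ^ 2))
    (s₀ : ℕ) (h0 : 1 ≤ s₀) (h01 : s₀ ≤ s₁) (h1 : s₁ ≤ n)
    (hlow : ∀ x, wt x < s₀ → ¬ F x) (hhigh : ∀ x, s₁ ≤ wt x → F x) :
    (s₀ : ℝ) * ((n : ℝ) + 1 - (s₀ : ℝ)) ≤ Λ * ((s₁ : ℝ) - (s₀ : ℝ) + 1) := by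
  classical
  -- the layer inequality for `seq`
  have hL : ∀ k, ∑ x, D (seq F s₁ k) x ^ 2 ≤ Λ * N F s₁ k + N F s₁ (k + 1) := by
    intro k
    have := layer F Λ hΛ H (seq F s₁ k) (seq_nonneg F s₁ k) (seq_supp F s₁ hhigh k)
    have e : ∑ x, (if F x then D (seq F s₁ k) x else 0) ^ 2 = N F s₁ (k + 1) := rfl
    rw [e] at this
    unfold N at this ⊢
    linarith
  -- the step
  have hS : ∀ k, N F s₁ (k + 1) ^ 2 ≤ (Λ * N F s₁ (k + 1) + N F s₁ (k + 2) +
      ((n : ℝ) - 2 * ((s₁ : ℝ) - ((k : ℝ) + 1))) * N F s₁ (k + 1)) * N F s₁ k := by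
    intro k
    have hcs := Finset.sum_mul_sq_le_sq_mul_sq univ (U (seq F s₁ (k + 1))) (seq F s₁ k)
    rw [N_supp F s₁ hhigh k] at hcs
    refine hcs.trans (mul_le_mul_of_nonneg_right ?_ (N_nonneg F s₁ k))
    rw [comm, layer_weight]
    have := hL (k + 1)
    push_cast
    linarith
  -- induction
  have hP : ∀ k, 0 < N F s₁ k →
      ((s₁ : ℝ) - (k : ℝ)) * ((n : ℝ) + 1 - ((s₁ : ℝ) - (k : ℝ))) ≤
        ((k : ℝ) + 1) * Λ + N F s₁ (k + 1) / N F s₁ k := by
    intro k
    induction k with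
    | zero =>
      intro hk
      have h2 := hL 0
      rw [sum_D_zero] at h2
      have h3 : (s₁ : ℝ) * ((n : ℝ) + 1 - (s₁ : ℝ)) ≤
          (Λ * N F s₁ 0 + N F s₁ 1) / N F s₁ 0 := by
        rw [le_div_iff₀ hk]; exact h2
      rw [add_div, mul_div_assoc, div_self hk.ne', mul_one] at h3
      simpa using h3
    | succ k ih =>
      intro hk
      have hk0 : 0 < N F s₁ k := by
        rcases (N_nonneg F s₁ k).eq_or_lt with h | h
        · exfalso
          have := hS k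
          rw [← h, mul_zero] at this
          nlinarith
        · exact h
      have h2 := ih hk0
      have h3 := hS k
      have h4 : N F s₁ (k + 1) / N F s₁ k ≤ Λ + N F s₁ (k + 2) / N F s₁ (k + 1) +
          ((n : ℝ) - 2 * ((s₁ : ℝ) - ((k : ℝ) + 1))) := by
        rw [div_le_iff₀ hk0]
        have h5 : N F s₁ (k + 1) ≤ (Λ * N F s₁ (k + 1) + N F s₁ (k + 2) +
            ((n : ℝ) - 2 * ((s₁ : ℝ) - ((k : ℝ) + 1))) * N F s₁ (k + 1)) * N F s₁ k /
              N F s₁ (k + 1) := by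
          rw [le_div_iff₀ hk, ← sq]; exact h3
        refine h5.trans (le_of_eq ?_)
        field_simp
      push_cast
      have h6 : ((s₁ : ℝ) - ((k : ℝ) + 1)) * ((n : ℝ) + 1 - ((s₁ : ℝ) - ((k : ℝ) + 1))) =
          ((s₁ : ℝ) - (k : ℝ)) * ((n : ℝ) + 1 - ((s₁ : ℝ) - (k : ℝ))) -
            ((n : ℝ) - 2 * ((s₁ : ℝ) - ((k : ℝ) + 1))) := by ring
      rw [h6]
      have e2 : k + 1 + 1 = k + 2 := rfl
      rw [e2]
      linarith
  -- the sequence vanishes after the layer `s₀`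
  have hvan : N F s₁ (s₁ - s₀ + 1) = 0 := by
    unfold N
    refine Finset.sum_eq_zero fun x _ => ?_
    by_cases h : seq F s₁ (s₁ - s₀ + 1) x = 0
    · rw [h]; ring
    · exfalso
      have h2 := seq_layer F s₁ _ x h
      have h3 : wt x < s₀ := by omega
      exact h (seq_supp F s₁ hhigh _ x (hlow x h3))
  have hex : ∃ k, N F s₁ k = 0 := ⟨_, hvan⟩
  obtain ⟨K, hK⟩ : ∃ K, Nat.find hex = K + 1 := by
    refine Nat.exists_eq_succ_of_ne_zero fun h => ?_
    have := Nat.find_spec hex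
    rw [h] at this
    exact (N_zero_pos F s₁ h1).ne' this
  have hK1 : N F s₁ (K + 1) = 0 := by rw [← hK]; exact Nat.find_spec hex
  have hK0 : 0 < N F s₁ K := by
    refine lt_of_le_of_ne (N_nonneg F s₁ K) (Ne.symm ?_)
    exact Nat.find_min hex (by omega)
  have hKle : K ≤ s₁ - s₀ := by
    have := Nat.find_min' hex hvan
    omega
  have hmain := hP K hK0
  rw [hK1, zero_div, add_zero] at hmain
  -- numbers
  obtain ⟨t, ht⟩ : ∃ t : ℕ, s₁ = t + K := ⟨s₁ - K, by omega⟩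
  have ht0 : s₀ ≤ t := by omega
  have hs : (s₁ : ℝ) - (K : ℝ) = (t : ℝ) := by rw [ht]; push_cast; ring
  rw [hs] at hmain
  have hKr : (K : ℝ) = (s₁ : ℝ) - (t : ℝ) := by linarith
  rw [hKr] at hmain
  have a0 : (1 : ℝ) ≤ (s₀ : ℝ) := by exact_mod_cast h0
  have a1 : (s₀ : ℝ) ≤ (t : ℝ) := by exact_mod_cast ht0
  have a2 : (t : ℝ) ≤ (s₁ : ℝ) := by rw [ht]; push_cast; linarith [(Nat.cast_nonneg K : (0:ℝ) ≤ (K:ℝ))]
  have a3 : (s₁ : ℝ) ≤ (n : ℝ) := by exact_mod_cast h1
  have key : (s₀ : ℝ) * ((n : ℝ) + 1 - (s₀ : ℝ)) * ((s₁ : ℝ) - (t : ℝ) + 1) ≤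
      (t : ℝ) * ((n : ℝ) + 1 - (t : ℝ)) * ((s₁ : ℝ) - (s₀ : ℝ) + 1) := by
    have e : (t : ℝ) * ((n : ℝ) + 1 - (t : ℝ)) * ((s₁ : ℝ) - (s₀ : ℝ) + 1) -
        (s₀ : ℝ) * ((n : ℝ) + 1 - (s₀ : ℝ)) * ((s₁ : ℝ) - (t : ℝ) + 1) =
        ((t : ℝ) - (s₀ : ℝ)) * (((n : ℝ) - (s₁ : ℝ)) * ((s₁ : ℝ) + 1) +
          ((s₁ : ℝ) + 1 - (t : ℝ)) * ((s₁ : ℝ) + 1 - (s₀ : ℝ))) := by ring
    have : 0 ≤ ((t : ℝ) - (s₀ : ℝ)) * (((n : ℝ) - (s₁ : ℝ)) * ((s₁ : ℝ) + 1) +
          ((s₁ : ℝ) + 1 - (t : ℝ)) * ((s₁ : ℝ) + 1 - (s₀ : ℝ))) := by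
      apply mul_nonneg (by linarith)
      apply add_nonneg
      · exact mul_nonneg (by linarith) (by linarith)
      · exact mul_nonneg (by linarith) (by linarith)
    linarith
  have hpos : (0:ℝ) < (s₁ : ℝ) - (t : ℝ) + 1 := by linarith
  have h7 : (t : ℝ) * ((n : ℝ) + 1 - (t : ℝ)) * ((s₁ : ℝ) - (s₀ : ℝ) + 1) ≤
      Λ * ((s₁ : ℝ) - (s₀ : ℝ) + 1) * ((s₁ : ℝ) - (t : ℝ) + 1) := by
    have := mul_le_mul_of_nonneg_right hmain (show (0:ℝ) ≤ (s₁ : ℝ) - (s₀ : ℝ) + 1 by linarith)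
    linarith
  exact le_of_mul_le_mul_right (key.trans h7) hpos

end Pool.H25.GapDeg
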